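import Pool.Agent.H.MP_474c54_lc.C

set_option autoImplicit false

namespace Pool.Agent.Results.MP_474c54_lc.Poly
open Pool.Agent.Lib.CX Pool.Agent.H.MP_474c54_lc

/-- one move of `k`-annihilation -/
def Move (k : ℕ) (a : Gr) (S S' : Set (Fin a.n)) : Prop :=
  ∃ u ∈ S, ∃ F ⊆ {v | a.arc u v}, F.ncard = min k {v | a.arc u v}.ncard ∧ S' = symmDiff (S \ {u}) F

/-- the position given by a list of vertices -/
def pos (a : Gr) (l : List ℕ) : Set (Fin a.n) := {v | v.1 ∈ l}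

theorem result (k : ℕ) : ∃ f : Gr × List ℕ → ℕ × List ℕ, PT f ∧ ∀ a l,
    (Win (Move k a) false (pos a l) ∧ (f (a, l)).1 = 0) ∨
    (Win (Move k a) true (pos a l) ∧ (f (a, l)).1 = 1 ∧ Move k a (pos a l) (pos a (f (a, l)).2) ∧
      Win (Move k a) false (pos a (f (a, l)).2)) ∨
    ((∀ b, ¬ Win (Move k a) b (pos a l)) ∧ (f (a, l)).1 = 2 ∧ Move k a (pos a l) (pos a (f (a, l)).2) ∧
      ∀ b, ¬ Win (Move k a) b (pos a (f (a, l)).2)) := by
  have h := (pt_ML k).comp (PT.fst' (α := Gr) (β := List ℕ))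
  refine ⟨fun p => alg p.1.n (ML k p.1) (fin p.1.n (ML k p.1)) p.2,
    pt_alg (by fun_prop) h (pt_fin (by fun_prop) h) PT.snd', fun a l => ?_⟩
  have := alg_ok (ML1 k a) (ML2 k a) l _ rfl
  simp only [Win.iff (mv' := Move k a) (toS _) (mv_iff k a), mv_iff, toS_chi] at this
  exact this

end Pool.Agent.Results.MP_474c54_lc.Poly
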